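import Mathlib
import Pool.Agent.Lib.MP_3c0690_nt.Final2

/-!
# The exponent `w₁` of an algebraic power series over a finite field is rational

`LaurentSeries F` is the field of formal Laurent series over `F`. Its variable is read as `1 / T`,
so that it is the completion `F((1/T))` of `F(T)` at infinity.
-/

namespace Pool.Agent.Results.MP_3c0690_nt.W1Rational

open Polynomial

/-- The embedding of `F[T]` into `F((1/T))`: the variable of `LaurentSeries F` is `1 / T`, so `T`
is sent to its inverse. -/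
noncomputable def polyEmb (F : Type*) [Field F] : Polynomial F →+* LaurentSeries F :=
  Polynomial.eval₂RingHom HahnSeries.C (HahnSeries.single (-1) 1)

open Classical in
/-- The absolute value on `F((1/T))`: `|0| = 0`, and `|x| = q ^ m` with `q` the cardinality of `F`
if the highest power of `T` occurring in `x` is `T ^ m`, that is if the lowest power of `1 / T`
occurring in `x` has exponent `-m`. -/
noncomputable def absK {F : Type*} [Field F] (x : LaurentSeries F) : ℝ :=
  if x = 0 then 0 else (Nat.card F : ℝ) ^ (-x.order)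

/-- The height of `P` in `F[T][X]`: the maximum of the absolute values of its coefficients. -/
noncomputable def height {F : Type*} [Field F] (P : Polynomial (Polynomial F)) : ℝ :=
  ⨆ i : ℕ, absK (polyEmb F (P.coeff i))

/-- The value `P(ξ)` of `P` in `F[T][X]` at `ξ` in `F((1/T))`. -/
noncomputable def evalK {F : Type*} [Field F] (P : Polynomial (Polynomial F))
    (ξ : LaurentSeries F) : LaurentSeries F :=
  P.eval₂ (polyEmb F) ξ

/-- The exponent `w_n(ξ)`: the supremum of the real numbers `w` such that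
`0 < |P(ξ)| ≤ H(P) ^ (-w)` for infinitely many `P` in `F[T][X]` of degree at most `n`. -/
noncomputable def wExp {F : Type*} [Field F] (n : ℕ) (ξ : LaurentSeries F) : EReal :=
  sSup {e : EReal | ∃ w : ℝ, e = (w : EReal) ∧
    {P : Polynomial (Polynomial F) | P.natDegree ≤ n ∧ 0 < absK (evalK P ξ) ∧
      absK (evalK P ξ) ≤ height P ^ (-w)}.Infinite}

section Aux

set_option linter.unusedSectionVars false

open Pool.Agent.MP3c0690

variable {F : Type*} [Field F]

theorem val_polyEmb (P : Polynomial F) (hP : P ≠ 0) :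
    HahnSeries.addVal ℤ F (polyEmb F P) = ((-(P.natDegree : ℤ) : ℤ) : WithTop ℤ) := by
  set v := HahnSeries.addVal ℤ F with hv
  have hT : v (HahnSeries.single (-1) 1 : LaurentSeries F) = ((-1 : ℤ) : WithTop ℤ) := by
    rw [hv, HahnSeries.addVal_apply, HahnSeries.orderTop_single one_ne_zero]
  have hC : ∀ a : F, a ≠ 0 → v (HahnSeries.C a : LaurentSeries F) = 0 := by
    intro a ha
    rw [hv, HahnSeries.addVal_apply]
    exact HahnSeries.orderTop_single ha
  have hterm : ∀ i : ℕ, ∀ a : F, a ≠ 0 →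
      v (HahnSeries.C a * (HahnSeries.single (-1) 1 : LaurentSeries F) ^ i) =
        ((-(i : ℤ) : ℤ) : WithTop ℤ) := by
    intro i a ha
    rw [AddValuation.map_mul, AddValuation.map_pow, hC a ha, hT, zero_add, ← WithTop.coe_nsmul]
    congr 1
    simp
  have hexp : polyEmb F P = ∑ i ∈ Finset.range P.natDegree,
      HahnSeries.C (P.coeff i) * (HahnSeries.single (-1) 1 : LaurentSeries F) ^ i +
      HahnSeries.C (P.coeff P.natDegree) *
        (HahnSeries.single (-1) 1 : LaurentSeries F) ^ P.natDegree := by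
    rw [← Finset.sum_range_succ, polyEmb, coe_eval₂RingHom, eval₂_eq_sum_range]
  have hlead : v (HahnSeries.C (P.coeff P.natDegree) *
        (HahnSeries.single (-1) 1 : LaurentSeries F) ^ P.natDegree) =
        ((-(P.natDegree : ℤ) : ℤ) : WithTop ℤ) := hterm _ _ (by
    rw [coeff_natDegree]
    exact leadingCoeff_ne_zero.2 hP)
  rw [hexp, add_comm, AddValuation.map_add_eq_of_lt_left, hlead]
  rw [hlead]
  apply AddValuation.map_lt_sum _ WithTop.coe_ne_top
  intro i hi
  rw [Finset.mem_range] at hi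
  by_cases h0 : P.coeff i = 0
  · rw [h0, map_zero, zero_mul, AddValuation.map_zero]
    exact WithTop.coe_lt_top _
  · rw [hterm i _ h0]
    exact_mod_cast (by omega : -(P.natDegree : ℤ) < -(i : ℤ))

theorem coef_fun (a : ℤ) : ∃ c : LaurentSeries F →+ F, ∀ x,
    (a : WithTop ℤ) ≤ HahnSeries.addVal ℤ F x → c x = 0 →
      ((a + 1 : ℤ) : WithTop ℤ) ≤ HahnSeries.addVal ℤ F x := by
  refine ⟨{ toFun := fun x => x.coeff a
            map_zero' := by simp
            map_add' := by simp }, fun x hx h0 => ?_⟩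
  rw [HahnSeries.addVal_apply] at *
  have h0' : x.coeff a = 0 := h0
  rcases eq_or_ne x 0 with rfl | hx0
  · rw [HahnSeries.orderTop_zero]
    exact le_top
  · rw [← HahnSeries.order_eq_orderTop_of_ne_zero hx0, WithTop.coe_le_coe] at hx ⊢
    rcases eq_or_lt_of_le hx with h | h
    · exfalso
      rw [h] at h0'
      exact HahnSeries.coeff_order_eq_zero.not.2 hx0 h0'
    · omega

theorem val_eq_order (x : LaurentSeries F) (hx : x ≠ 0) :
    HahnSeries.addVal ℤ F x = (x.order : WithTop ℤ) := by
  rw [HahnSeries.addVal_apply, HahnSeries.order_eq_orderTop_of_ne_zero hx]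

variable [Finite F]

theorem card_gt : (1 : ℝ) < Nat.card F := by
  exact_mod_cast Finite.one_lt_card (α := F)

theorem absK_of_val {x : LaurentSeries F} {a : ℤ}
    (h : HahnSeries.addVal ℤ F x = (a : WithTop ℤ)) : absK x = (Nat.card F : ℝ) ^ (-a) := by
  have hx : x ≠ 0 := by
    rintro rfl
    rw [AddValuation.map_zero] at h
    exact WithTop.coe_ne_top h.symm
  rw [val_eq_order x hx, WithTop.coe_inj] at h
  rw [absK, if_neg hx, h]

theorem absK_nonneg (x : LaurentSeries F) : 0 ≤ absK x := by
  rw [absK]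
  split_ifs
  · exact le_rfl
  · positivity

theorem absK_poly (P : Polynomial F) (hP : P ≠ 0) :
    absK (polyEmb F P) = (Nat.card F : ℝ) ^ P.natDegree := by
  rw [absK_of_val (val_polyEmb P hP), neg_neg, zpow_natCast]

theorem absK_poly_le (P : Polynomial F) {n : ℕ} (hn : P.natDegree ≤ n) :
    absK (polyEmb F P) ≤ (Nat.card F : ℝ) ^ n := by
  rcases eq_or_ne P 0 with rfl | hP
  · rw [map_zero, absK, if_pos rfl]
    positivity
  · rw [absK_poly P hP]
    exact pow_le_pow_right₀ card_gt.le hn

theorem height_eq (P : Polynomial (Polynomial F)) (hP : P ≠ 0) (hd : P.natDegree ≤ 1) :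
    height P = (Nat.card F : ℝ) ^ (dg (P.coeff 0, P.coeff 1)) := by
  have hup : ∀ i : ℕ, absK (polyEmb F (P.coeff i)) ≤
      (Nat.card F : ℝ) ^ (dg (P.coeff 0, P.coeff 1)) := by
    intro i
    rcases i with _ | _ | i
    · exact absK_poly_le _ (le_max_left _ _)
    · exact absK_poly_le _ (le_max_right _ _)
    · rw [coeff_eq_zero_of_natDegree_lt (by omega), map_zero, absK, if_pos rfl]
      positivity
  have hbdd : BddAbove (Set.range fun i : ℕ => absK (polyEmb F (P.coeff i))) :=
    ⟨_, by rintro _ ⟨i, rfl⟩; exact hup i⟩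
  apply le_antisymm (ciSup_le hup)
  by_cases h1 : P.coeff 1 = 0
  · have h0 : P.coeff 0 ≠ 0 := by
      intro h0
      apply hP
      refine Polynomial.ext fun i => ?_
      rcases i with _ | _ | i
      · rw [h0, coeff_zero]
      · rw [h1, coeff_zero]
      · rw [coeff_eq_zero_of_natDegree_lt (by omega), coeff_zero]
    have hdg : dg (P.coeff 0, P.coeff 1) = (P.coeff 0).natDegree := by
      simp [dg, h1]
    rw [hdg, ← absK_poly _ h0]
    exact le_ciSup hbdd 0
  · rcases le_total (P.coeff 0).natDegree (P.coeff 1).natDegree with h2 | h2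
    · have hdg : dg (P.coeff 0, P.coeff 1) = (P.coeff 1).natDegree := max_eq_right h2
      rw [hdg, ← absK_poly _ h1]
      exact le_ciSup hbdd 1
    · have hdg : dg (P.coeff 0, P.coeff 1) = (P.coeff 0).natDegree := max_eq_left h2
      by_cases h0 : P.coeff 0 = 0
      · have h3 : (P.coeff 1).natDegree = 0 := by
          rw [h0, natDegree_zero] at h2
          omega
        rw [hdg, h0, natDegree_zero, ← h3, ← absK_poly _ h1]
        exact le_ciSup hbdd 1
      · rw [hdg, ← absK_poly _ h0]
        exact le_ciSup hbdd 0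

theorem evalK_eq (P : Polynomial (Polynomial F)) (hd : P.natDegree ≤ 1) (ξ : LaurentSeries F) :
    evalK P ξ = lin (polyEmb F) ξ (P.coeff 0, P.coeff 1) := by
  rw [evalK, eval₂_eq_sum_range' _ (Nat.lt_succ_of_le hd), lin]
  simp [Finset.sum_range_succ]

theorem mem_iff (P : Polynomial (Polynomial F)) (hd : P.natDegree ≤ 1) (ξ : LaurentSeries F)
    (w : ℝ) : (0 < absK (evalK P ξ) ∧ absK (evalK P ξ) ≤ height P ^ (-w)) ↔
      (P.coeff 0, P.coeff 1) ∈ SS (HahnSeries.addVal ℤ F) (polyEmb F) ξ w := by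
  have hq := card_gt (F := F)
  have hq0 : (0 : ℝ) < Nat.card F := by linarith
  rw [evalK_eq P hd ξ]
  have key : ∀ a : ℤ, HahnSeries.addVal ℤ F (lin (polyEmb F) ξ (P.coeff 0, P.coeff 1)) = a →
      (absK (lin (polyEmb F) ξ (P.coeff 0, P.coeff 1)) ≤ height P ^ (-w) ↔
        w * (dg (P.coeff 0, P.coeff 1) : ℝ) ≤ a) := by
    intro a ha
    have hP : P ≠ 0 := by
      rintro rfl
      simp [lin] at ha
    rw [absK_of_val ha, height_eq P hP hd, ← Real.rpow_natCast, ← Real.rpow_mul hq0.le,
      ← Real.rpow_intCast, Real.rpow_le_rpow_left_iff hq]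
    push_cast
    constructor <;> intro h <;> linarith
  constructor
  · rintro ⟨h1, h2⟩
    have hne : lin (polyEmb F) ξ (P.coeff 0, P.coeff 1) ≠ 0 := by
      intro h0
      rw [h0, absK, if_pos rfl] at h1
      exact lt_irrefl _ h1
    exact ⟨_, val_eq_order _ hne, (key _ (val_eq_order _ hne)).1 h2⟩
  · rintro ⟨a, ha, hw⟩
    refine ⟨?_, (key a ha).2 hw⟩
    rw [absK_of_val ha]
    positivity

theorem infinite_iff (ξ : LaurentSeries F) (w : ℝ) :
    {P : Polynomial (Polynomial F) | P.natDegree ≤ 1 ∧ 0 < absK (evalK P ξ) ∧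
      absK (evalK P ξ) ≤ height P ^ (-w)}.Infinite ↔
      (SS (HahnSeries.addVal ℤ F) (polyEmb F) ξ w).Infinite := by
  set S := {P : Polynomial (Polynomial F) | P.natDegree ≤ 1 ∧ 0 < absK (evalK P ξ) ∧
      absK (evalK P ξ) ≤ height P ^ (-w)} with hS
  have hinj : Set.InjOn (fun P : Polynomial (Polynomial F) => (P.coeff 0, P.coeff 1)) S := by
    intro P hP Q hQ hPQ
    have h1 : P.coeff 0 = Q.coeff 0 := congrArg Prod.fst hPQ
    have h2 : P.coeff 1 = Q.coeff 1 := congrArg Prod.snd hPQ
    have hP1 : P.natDegree ≤ 1 := hP.1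
    have hQ1 : Q.natDegree ≤ 1 := hQ.1
    refine Polynomial.ext fun i => ?_
    rcases i with _ | _ | i
    · exact h1
    · exact h2
    · rw [coeff_eq_zero_of_natDegree_lt (by omega), coeff_eq_zero_of_natDegree_lt (by omega)]
  have himg : (fun P : Polynomial (Polynomial F) => (P.coeff 0, P.coeff 1)) '' S =
      SS (HahnSeries.addVal ℤ F) (polyEmb F) ξ w := by
    ext x
    constructor
    · rintro ⟨P, ⟨hd, hP⟩, rfl⟩
      exact (mem_iff P hd ξ w).1 hP
    · intro hx
      have hd : (C x.2 * X + C x.1).natDegree ≤ 1 := natDegree_linear_le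
      have h0 : (C x.2 * X + C x.1).coeff 0 = x.1 := by simp
      have h1 : (C x.2 * X + C x.1).coeff 1 = x.2 := by simp [coeff_C]
      refine ⟨C x.2 * X + C x.1, ⟨hd, (mem_iff _ hd ξ w).2 ?_⟩, ?_⟩
      · rw [h0, h1]
        exact hx
      · simp only [h0, h1]
  rw [← himg, Set.infinite_image_iff hinj]

end Aux

/-- **Main theorem.** For every finite field `F` and every algebraic power series `ξ` in
`F((1/T))`, the exponent `w₁(ξ)` is a rational number. -/
theorem result (F : Type*) [Field F] [Finite F] (ξ : LaurentSeries F)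
    (hξ : ∃ P : Polynomial (Polynomial F), P ≠ 0 ∧ evalK P ξ = 0) :
    ∃ r : ℚ, wExp 1 ξ = ((r : ℝ) : EReal) := by
  obtain ⟨r, h1, h2⟩ := Pool.Agent.MP3c0690.final_main (v := HahnSeries.addVal ℤ F)
    (emb := polyEmb F) (fun P hP => val_polyEmb P hP) coef_fun ξ hξ
  refine ⟨r, le_antisymm (sSup_le ?_) (le_of_forall_lt ?_)⟩
  · rintro e ⟨w, rfl, hw⟩
    rw [infinite_iff] at hw
    by_contra hcon
    have hlt : (r : ℝ) < w := by
      rw [not_le] at hcon
      exact_mod_cast hcon
    exact hw (h2 w hlt)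
  · intro c hc
    obtain ⟨w, hw1, hw2⟩ := EReal.lt_iff_exists_real_btwn.1 hc
    refine lt_of_lt_of_le hw1 (le_sSup ⟨w, rfl, ?_⟩)
    rw [infinite_iff]
    exact h1 w (by exact_mod_cast hw2)

end Pool.Agent.Results.MP_3c0690_nt.W1Rational
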